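import Pool.Agent.Run7.h941.CB2

set_option autoImplicit false
open MvPolynomial

/-- The Eisenbud-Green-Harris (Cayley-Bacharach) multiplicity bound for almost complete
intersections in at most three variables, and in any number `n` of variables when all `a_i ≥ 2` and
`a_i ≥ (a_1 - 1) + … + (a_{i-1} - 1)` for all `i ≥ 4` (no condition on `a_1, a_2, a_3`). Apart from
this hypothesis the statement is word for word the posed one (with the field in any universe). -/
theorem Pool.Agent.Results.MP_4cdbcc_ag.ThreeFormsSharpBound.result :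
  ∀ (K : Type*) [Field K] (n : ℕ), 1 ≤ n →
  ∀ (a : Fin n → ℕ), (∀ i, 0 < a i) → Monotone a →
    (n ≤ 3 ∨ ((∀ i, 2 ≤ a i) ∧
      ∀ i : Fin n, 3 ≤ i.val → ∑ j ∈ Finset.Iio i, (a j - 1) ≤ a i)) →
  ∀ (f : Fin n → MvPolynomial (Fin n) K),
    (∀ i, (f i).IsHomogeneous (a i)) →
    RingTheory.Sequence.IsRegular (MvPolynomial (Fin n) K) (List.ofFn f) →
  ∀ (D b : ℕ),
    (∀ i : Fin n, i.val = 0 → a i ≤ D) →
    D ≤ ∑ i : Fin n, (a i - 1) →
    1 ≤ b → b ≤ n →
    (∑ i ∈ Finset.univ.filter (fun i : Fin n => i.val < b), (a i - 1)) ≤ D →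
    (b < n → D < ∑ i ∈ Finset.univ.filter (fun i : Fin n => i.val < b + 1), (a i - 1)) →
  ∀ (g : MvPolynomial (Fin n) K), g.IsHomogeneous D →
    g ∉ Ideal.span (Set.range f) →
    ((Module.finrank K (MvPolynomial (Fin n) K ⧸
        (Ideal.span (Set.range f) ⊔ Ideal.span {g})) : ℕ) : ℤ)
      ≤ (∏ i : Fin n, (a i : ℤ))
        - (if b < n then
            ((∑ i ∈ Finset.univ.filter (fun i : Fin n => i.val < b + 1), (a i - 1) : ℕ) : ℤ)
              - (D : ℤ) + 1
           else 1)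
          * ∏ i ∈ Finset.univ.filter (fun i : Fin n => b + 1 ≤ i.val), (a i : ℤ) := by
  intro K _ n _ a ha hm hA f hf hreg D b _ hDn _ hbn h1 h2 g hg hgI
  have hR : H503R3.QCI.Reg f := H503R3.QCI.reg_of_isWeaklyRegular hreg.toIsWeaklyRegular
  have h3 := Run7.H941.N.aci_le ha hm hA hf hR hDn h1 h2 hbn hg hgI
  have h4 := (Nat.cast_le (α := ℤ)).mpr h3
  rw [Nat.cast_add, Nat.cast_mul, Nat.cast_prod, Nat.cast_prod] at h4
  have h5 : (((if b < n then ∑ i ∈ Finset.univ.filter (fun i : Fin n => i.val < b + 1), (a i - 1) - D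
      + 1 else 1 : ℕ)) : ℤ) = (if b < n then
            ((∑ i ∈ Finset.univ.filter (fun i : Fin n => i.val < b + 1), (a i - 1) : ℕ) : ℤ)
              - (D : ℤ) + 1
           else 1) := by
    by_cases hb : b < n
    · rw [if_pos hb, if_pos hb, Nat.cast_add, Nat.cast_sub (le_of_lt (h2 hb)), Nat.cast_one]
    · rw [if_neg hb, if_neg hb, Nat.cast_one]
  rw [h5] at h4
  linarith
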